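import Pool.Agent.Q143.RA.Lin

/-!
# The Farrell–Jones conjecture for groups of automorphisms of affine space that fix all but two
coordinates

`Closed C` (`Pool.Agent.Y462.SS.Base`): the class `C` of groups contains `ℤ` and is closed under
groups that embed, finite products, free products, overgroups of finite index and colimits of directed
systems.  `ExtClosed C` (`Pool.Agent.Q152.WP.Perm`): if `G` maps onto a group `Q` of `C`, and the
kernel and the preimages of all infinite cyclic subgroups of `Q` are in `C`, then `G` is in `C`.  These
properties, and the fact that `C` contains the solvable groups, are known for the class of the groups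
which satisfy the `K`-theoretic Farrell–Jones conjecture with coefficients in additive categories and
finite wreath products.

`DegFun deg` (`Pool.Agent.Q143.BT.Deg`): the function `deg : A → ℕ` on the domain `A` satisfies
`deg (a * b) = deg a + deg b` and `deg (a + b) ≤ max (deg a) (deg b)` for nonzero arguments.

From `Pool.Agent.Q143.RA`: `AR A` is the group of the `A`-algebra automorphisms of `A[X_0, X_1]`,
`StR x` the subgroup of those which fix the point `x` of `A ^ 2` (a section of the projection
`𝔸²_A → Spec A`), `linR x : StR x → GL_2(A)` the linear part at `x` (the inverse of the Jacobian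
matrix), `bc F φ` the extension of the automorphism `φ` to the field of fractions `F`,
`TS x` the subgroup of the `φ` in `StR x` with `bc F φ` tame, i.e. in the group `Tame F`
(`Pool.Agent.Q143.JN.PA`) generated by the linear and elementary automorphisms and the translations. By
the theorem of Jung and van der Kulk (not used here) `TS x = StR x`.
-/

set_option autoImplicit false

namespace Pool.Agent.Results.MP_d19827_al.FibredAutomorphisms

open Pool.Agent.Y462.SS Pool.Agent.Q152.WP Pool.Agent.Q143.BT Pool.Agent.Q143.RA Matrix

/-- Let `C` be a class of groups with the closure properties `Closed C` and `ExtClosed C` that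
contains the solvable groups.

(1) Let `A` be a commutative domain with a degree function, `ε : A → B` a ring homomorphism such that
all nonzero elements of the kernel of `ε` have positive degree, `x` a point of `A ^ 2` and `Γ` a
group of `A`-automorphisms of `A[X_0, X_1]` that fix `x` and are tame over the field of fractions.
If the image under `ε` of the group of the linear parts of `Γ` at `x` is in `C`, then `Γ` is in `C`.

(2) For every commutative domain `D`, every set `σ` of variables and every point `x` of
`D[t_s, s ∈ σ] ^ 2`, the group of all automorphisms of `D[t_s, s ∈ σ][X_0, X_1]` over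
`D[t_s, s ∈ σ]` that fix `x` and are tame over the field of fractions is in `C` if and only if
`GL_2(D)` is in `C`. -/
theorem result (C : ∀ (G : Type) [Group G], Prop) (hC : Closed C) (hE : ExtClosed C)
    (hS : ∀ (G : Type) [Group G], Group.IsSolvable G → C G) :
    (∀ (A B : Type) [CommRing A] [IsDomain A] [CommRing B] (deg : A → ℕ), DegFun deg →
      ∀ ε : A →+* B, (∀ a, ε a = 0 → a ≠ 0 → 0 < deg a) →
      ∀ (x : Fin 2 → A) (Γ : Subgroup (AR A)), Γ ≤ TS x →
        C (((Γ.subgroupOf (StR x)).map (linR x)).map (GeneralLinearGroup.map ε)) → C Γ) ∧
    ∀ (σ D : Type) [CommRing D] [IsDomain D] (x : Fin 2 → MvPolynomial σ D),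
      C (TS x) ↔ C (GL (Fin 2) D) :=
  ⟨fun _ _ _ _ _ _ h ε hε x Γ hΓ hQ => deg_ra_mem hC hE hS h ε hε x Γ hΓ hQ,
    fun σ D _ _ x => mv_ts_iff hC hE hS σ D x⟩

end Pool.Agent.Results.MP_d19827_al.FibredAutomorphisms
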