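import Pool.Agent.Q99.OB.Conj

/-!
# Farrell–Jones groups of braids on linearly ordered sets of strands

`Closed C` (`Pool.Agent.Y462.SS.Base`): the class `C` of groups contains `ℤ` and is closed under
groups that embed, finite products, free products, overgroups of finite index and colimits of directed
systems with arbitrary structure maps.  `ExtClosed C` (`Pool.Agent.Q152.WP.Perm`): if `G` maps onto a
group `Q` of `C`, and the kernel and the preimages of all infinite cyclic subgroups of `Q` are in `C`,
then `G` is in `C`.  All these properties are known for the class of the groups which satisfy the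
K-theoretic Farrell–Jones conjecture with coefficients and finite wreath products.  All projective
modules over the integral group ring of a torsion-free group of this class are stably free, if they are
finitely generated, so that such a group is of type (FF) if it is of type (FP).

`BG Λ` (`Pool.Agent.Q99.OB.Basic`) is the braid group on an arbitrary linearly ordered set `Λ` of
strands, in the presentation of Birman, Ko and Lee: the generators are the elements `a_{ts}`, `s < t`,
and the relations are `a_{ts} a_{rq} = a_{rq} a_{ts}` if the pairs `s < t` and `q < r` are disjoint and
not interlaced, and `a_{ts} a_{sr} = a_{tr} a_{ts} = a_{sr} a_{tr}` if `r < s < t`.  The braid group on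
`n` strands is `BG (Fin n)`.  Order embeddings of `Λ` into itself induce endomorphisms `map σ`.

Outline of the proof.  Let `g, h` be increasing families of `k` elements of `Λ`.  If they differ in one
member, `g i < h i`, then `a_{h(i) g(i)}` conjugates `a_{g(m) g(l)}` into `a_{h(m) h(l)}` for all `l < m`.
In general, `g` and `h` are joined, through their maximum, by families of which two consecutive ones
differ in one member.  So order embeddings act on `BG Λ` by locally inner endomorphisms.  The rest is
the theorem on limits of automorphisms (`Pool.Agent.Q105.FJ.real_kernel`).
-/

set_option autoImplicit false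

namespace Pool.Agent.Results.MP_d19827_al.OrderedBraids

open Pool.Agent.Y462.SS Pool.Agent.Q152.WP Pool.Agent.Q99.OB

/-- Each order embedding of `Λ` into `Λ` acts on the braid group on `Λ` by a locally inner
endomorphism: on each finite set of braids it coincides with the conjugation by some braid. -/
def LocallyInner (Λ : Type) [LinearOrder Λ] : Prop :=
  ∀ (σ : Λ ↪o Λ) (E : Finset (BG Λ)), ∃ b : BG Λ, ∀ x ∈ E, b * x * b⁻¹ = map σ x

/-- `g` acts on the kernel of `f`, a group of braids on `Λ` through `ι`, by an order automorphism of
`Λ` followed by the conjugation by a braid. -/
def ActsByOrder {G Q : Type} [Group G] [Group Q] (f : G →* Q) {Λ : Type} [LinearOrder Λ]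
    (ι : f.ker →* BG Λ) (g : G) : Prop :=
  ∃ (σ : Λ ≃o Λ) (b : BG Λ), ∀ x : f.ker,
    ι ⟨g * x.1 * g⁻¹, (MonoidHom.normal_ker f).conj_mem x.1 x.2 g⟩ =
      b * map σ.toOrderEmbedding (ι x) * b⁻¹

/-- Let `C` be a class of groups with the properties `Closed` and `ExtClosed` which contains the braid
groups on finitely many strands.  Let `Λ` be a linearly ordered set.
(1) The braid group on `Λ` is in `C`.
(2) Each order embedding of `Λ` into `Λ` acts on this group by a locally inner endomorphism.
(3) Let `f` be a homomorphism of a group `G` onto a group `Q` of `C` and `ι` an embedding of its kernel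
into the braid group on `Λ`.  If each `g` in `G` with `f g` of infinite order acts on the kernel by an
order automorphism of `Λ` followed by the conjugation by a braid, then `G` is in `C`. -/
theorem result (C : ∀ (G : Type) [Group G], Prop) (hC : Closed C) (hE : ExtClosed C)
    (hB : ∀ n : ℕ, C (BG (Fin n))) (Λ : Type) [LinearOrder Λ] :
    C (BG Λ) ∧ LocallyInner Λ ∧
    ∀ (G Q : Type) [Group G] [Group Q] (f : G →* Q), Function.Surjective f → C Q →
      ∀ ι : f.ker →* BG Λ, Function.Injective ι →
        (∀ g : G, ¬ IsOfFinOrder (f g) → ActsByOrder f ι g) → C G :=
  ⟨BG_mem hC hB, locInner, fun _ _ _ _ f hf hQ ι hι h => ext_mem hC hE hB f hf hQ ι hι h⟩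

end Pool.Agent.Results.MP_d19827_al.OrderedBraids
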