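import Pool.Agent.Q152.TC.PerMain

/-!
# Graphs of groups glued along subgroups of finite index of peripheral subgroups

`Closed C` (`Pool.Agent.Y462.SS.Base`): the class `C` of groups contains `ℤ` and is closed under
groups that embed, finite products, free products, overgroups of finite index and colimits of directed
systems.  `ExtClosed C` (`Pool.Agent.Q152.WP.Perm`): if `G` maps onto a group `Q` of `C`, and the
kernel and the preimages of all infinite cyclic subgroups of `Q` are in `C`, then `G` is in `C`.
`HasSolvable C`: solvable groups are in `C`.
`TreeClosed C` (`Pool.Agent.Q152.TC.Cent`): the class `C` contains the finitely generated groups `H` which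
act on a tree with finitely many orbits of edges, such that for some normal subgroup `N` acting trivially
the action of `H / N` is acylindrical, and such that the vertex stabilizers and the preimages of all
cyclic subgroups of `H / N` are in `C`.  These properties are known for the class of the groups
which satisfy the `K`- and `L`-theoretic Farrell–Jones conjecture with coefficients in additive
categories and finite wreath products.

`St Γ x y`: the intersection of the stabilizers of `x` and `y`.  `AMal K P`: the members of `P` are
subgroups of `K`, two different members have finite intersection, and so have `A` and `g A g⁻¹` for
`A` in `P` and `g` in `K` outside `A` (e.g. the conjugates of the peripheral subgroups of a relatively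
hyperbolic group `K`).  `PerAt Γ T v`: for some family `P` with `AMal K P`, where `K` is the stabilizer of
`v`, each infinite stabilizer of an edge at `v` has finite index in some member of `P`.
`BTor K`: the orders of the finite subgroups of `K` are bounded.  `Rk n K`
(`Pool.Agent.Q152.TA.Rank`): `K` has finite rank, in the following sense: `Rk 0 K` if all subgroups of `K`
have a divisible abelian torsion subgroup of finite index, `Rk (n + 1) K` if `K` has a subgroup of
finite index with a homomorphism to the rational numbers whose kernel `K'` has the property `Rk n K'`; for
example virtually polycyclic groups.

Proof.  Two edges are equivalent if they agree up to orientation, or if their stabilizers are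
infinite and commensurable.  Because of the almost malnormal families, all edges on the path
between two edges whose stabilizers have an infinite intersection are equivalent to them.  So the
classes are subtrees (cylinders), and the group acts on the tree of cylinders acylindrically.  If `Y`
is a cylinder and `v` a vertex of `Y`, then the stabilizer of `Y` meets that of `v` in a member of the
family, up to finite index, so the stabilizer of `Y` acts on `Y` with commensurable stabilizers, and the theorem
on trees with commensurable stabilizers of finite rank (`tree_comm'`) applies.
-/

set_option autoImplicit false

namespace Pool.Agent.Results.MP_d19827_al.PeripheralSplittings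

open Pool.Agent.Y462.SS Pool.Agent.Q152.WP Pool.Agent.Q152.TC Pool.Agent.Q152.TA
open Pool.Agent.Q91.FJ

/-- Let `C` be a class of groups with the closure properties `Closed C`, `ExtClosed C` and
`TreeClosed C` which contains the solvable groups, and let the group `Γ` act on a tree by graph
automorphisms (with or without inversions, with any number of orbits).  Suppose that for each
vertex `v` the infinite stabilizers of the edges at `v` have finite index in members of an almost
malnormal family of subgroups of the stabilizer of `v`, and that the edge stabilizers have
finite rank and finite subgroups of bounded order.  Then `Γ` is in `C` if and only if all vertex stabilizers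
are in `C`. -/
theorem result (C : ∀ (G : Type) [Group G], Prop) (hC : Closed C) (hE : ExtClosed C)
    (hS : HasSolvable C) (hA : TreeClosed C)
    (V Γ : Type) [Group Γ] [MulAction Γ V] (T : SimpleGraph V) (hT : T.IsTree)
    (hadj : ∀ (γ : Γ) (x y : V), T.Adj x y → T.Adj (γ • x) (γ • y))
    (hper : ∀ v : V, PerAt Γ T v)
    (hedge : ∀ v w : V, T.Adj v w → BTor (St Γ v w) ∧ ∃ n : ℕ, Rk n (St Γ v w)) :
    C Γ ↔ ∀ v : V, C (MulAction.stabilizer Γ v) :=
  ⟨fun h v => hC.of_injective _ _ (MulAction.stabilizer Γ v).subtype
    (MulAction.stabilizer Γ v).subtype_injective h,
    fun h => per_main hC hE hS hA hT hadj hper (fun v w hvw => (hedge v w hvw).1)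
      (fun v w hvw => (hedge v w hvw).2) h⟩

end Pool.Agent.Results.MP_d19827_al.PeripheralSplittings
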