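import Pool.Agent.Q143.DN.Dan2

/-!
# The Farrell–Jones conjecture for the automorphism groups of the surfaces `x y = P(z)`

`Closed C` (`Pool.Agent.Y462.SS.Base`): the class `C` of groups contains `ℤ` and is closed under
groups that embed, finite products, free products, overgroups of finite index and colimits of directed
systems.  `ExtClosed C` (`Pool.Agent.Q152.WP.Perm`): if `G` maps onto a group `Q` of `C`, and the
kernel and the preimages of all infinite cyclic subgroups of `Q` are in `C`, then `G` is in `C`.  These
properties, and the fact that `C` contains the solvable groups, are known for the class of the groups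
which satisfy the `K`- and `L`-theoretic Farrell–Jones conjecture with coefficients in additive
categories and finite wreath products.

Definitions of `Pool.Agent.Q143.DN`, for a field `K` and a polynomial `P` over `K`:
* `Dan K P = K[x, y, z] / (x y - P(z))`, with the coordinates `co K P 0 = x`, `co K P 1 = y`,
  `co K P 2 = z`; `AD K P` is the group of the `K`-automorphisms of this algebra;
* `SD K P`: the automorphisms `(x, y, z) ↦ (l x, m y, a z + b)` and
  `(x, y, z) ↦ (l y, m x, a z + b)`, `l, m, a ≠ 0` and `b` in `K`;
* `UX K P`: the automorphisms that fix `x` and map `z` to `z + x g(x)`, `g` a polynomial; `UY K P`: those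
  that fix `y` and map `z` to `z + y g(y)`;
* `Tame K P`: the group generated by `SD K P`, `UX K P` and `UY K P`.
-/

set_option autoImplicit false

namespace Pool.Agent.Results.MP_d19827_al.SurfaceAutomorphisms

open Pool.Agent.Y462.SS Pool.Agent.Q152.WP Pool.Agent.Q143.DN

/-- Let `C` be a class of groups with the closure properties `Closed C` and `ExtClosed C` that
contains the solvable groups, `K` any field and `P` a polynomial of degree at least 3 over `K`. The
group of the tame automorphisms of the surface `x y = P(z)` over `K` is in `C`. -/
theorem result (C : ∀ (G : Type) [Group G], Prop) (hC : Closed C) (hE : ExtClosed C)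
    (hS : ∀ (G : Type) [Group G], Group.IsSolvable G → C G)
    (K : Type) [Field K] (P : Polynomial K) (hP : 3 ≤ P.natDegree) : C (Tame K P) :=
  tame_mem hC hE hS hP

end Pool.Agent.Results.MP_d19827_al.SurfaceAutomorphisms
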